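import Pool.Agent.H97.BF.Main

/-!
# MP_e8ee11_co: set systems with small subdeterminants

A set system all of whose subdeterminants (determinants of square submatrices of the incidence matrix)
are at most `1` in absolute value has discrepancy at most `1` (Hoffman and Kruskal, Ghouila-Houri).
We go beyond this class. If an integer matrix `A` has all subdeterminants at most `3` in absolute value,
or all of them in `{0, 1, -1, q, -q}`, then every point `x` of the cube can be rounded to a point `z` of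
`{0, 1}^n`, keeping the integral coordinates, such that every row of `A (z - x)` is less than `5/2`,
respectively less than `1 + ⌊q/2⌋`, in absolute value. So the set systems with subdeterminants at most
`D ≤ 3` satisfy the bound of Beck and Fiala in the strong form `disc ≤ D + 1`, for every degree `t`, and
so do all their restrictions.

Proof. Let `y` be a point of the cube with the fewest fractional coordinates such that every row of `A y`
lies between the floor and the ceiling of the row of `A x`. The fractional coordinates `F` of `y` are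
determined by `|F|` rows `B` of `A` with integral values. Let `δ = |det B|` and let `d` be a column of
`adj(B)`. By Cramer's rule a step from `y` along `d / δ` changes every row of `A y` and every
coordinate by at most `D / δ`. A column `d` with an entry prime to `δ` spans the kernel of `B` modulo `δ`,
and `δ y` lies in this kernel, so `y - s d / δ` is integral for some integer `s`. This point lies in the
cube if `|s d_l| ≤ δ` for all `l`, and this settles `δ = 3` (with `s = ±1`), subdeterminants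
`0, ±1, ±q` (here `d_l = ±1` and `|s| ≤ q / 2`), and `δ = 2` if all `|d_l| = 1`. If `δ = 2` and some
`|d_l| = 3`, then a third of the step leads to a point with fewer fractional coordinates, all `1/3` or
`2/3`, which again is a vertex, now with determinant `±3`.
-/

set_option autoImplicit false

open Finset

namespace Pool.Agent.Results.MP_e8ee11_co.SmallSubdeterminants

open Pool.Agent.H97.ZL Pool.Agent.H97.BF

/-- **Rounding for matrices with small subdeterminants.** (1) All subdeterminants at most `3` in absolute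
value. (2) All subdeterminants in `{0, 1, -1, q, -q}`. (3) Set systems with subdeterminants at most
`D ≤ 3`: every restriction has discrepancy at most `D + 1`. -/
theorem result :
    (∀ (m n : ℕ) (A : Matrix (Fin m) (Fin n) ℤ),
      (∀ (k : ℕ) (r : Fin k → Fin m) (c : Fin k → Fin n), |(A.submatrix r c).det| ≤ 3) →
      ∀ x : Fin n → ℝ, (∀ j, 0 ≤ x j ∧ x j ≤ 1) →
      ∃ z : Fin n → ℤ, (∀ j, z j = 0 ∨ z j = 1) ∧
        (∀ j, (x j = 0 → z j = 0) ∧ (x j = 1 → z j = 1)) ∧
        ∀ i, |∑ j, (A i j : ℝ) * ((z j : ℝ) - x j)| < 5 / 2) ∧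
    (∀ (q m n : ℕ) (A : Matrix (Fin m) (Fin n) ℤ),
      (∀ (k : ℕ) (r : Fin k → Fin m) (c : Fin k → Fin n), |(A.submatrix r c).det| = 0 ∨
        |(A.submatrix r c).det| = 1 ∨ |(A.submatrix r c).det| = q) →
      ∀ x : Fin n → ℝ, (∀ j, 0 ≤ x j ∧ x j ≤ 1) →
      ∃ z : Fin n → ℤ, (∀ j, z j = 0 ∨ z j = 1) ∧
        (∀ j, (x j = 0 → z j = 0) ∧ (x j = 1 → z j = 1)) ∧
        ∀ i, |∑ j, (A i j : ℝ) * ((z j : ℝ) - x j)| < 1 + ((q / 2 : ℕ) : ℝ)) ∧
    (∀ (D m n : ℕ) (S : Fin m → Finset (Fin n)), D ≤ 3 →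
      (∀ (k : ℕ) (r : Fin k → Fin m) (c : Fin k → Fin n),
        |(Matrix.of fun i j => if c j ∈ S (r i) then (1 : ℤ) else 0).det| ≤ D) →
      ∀ I : Finset (Fin n), ∃ χ : Fin n → ℤ, (∀ j, χ j = 1 ∨ χ j = -1) ∧
        ∀ i, |∑ j ∈ S i ∩ I, χ j| ≤ (D : ℤ) + 1) := by
  have hev : ∀ {m n : ℕ} (A : Matrix (Fin m) (Fin n) ℤ) (x : Fin n → ℝ) (z : Fin n → ℤ) (i : Fin m),
      ∑ j, (A i j : ℝ) * ((z j : ℝ) - x j) = ev (A i) (fun j => (z j : ℝ)) - ev (A i) x := by
    intro m n A x z i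
    unfold ev
    rw [← sum_sub_distrib]
    exact sum_congr rfl fun j _ => by ring
  have hfloor : ∀ a b : ℝ, (⌊a⌋ : ℝ) ≤ b → b ≤ ⌈a⌉ → |b - a| < 1 := by
    intro a b h1 h2
    rw [abs_lt]
    constructor
    · linarith [Int.lt_floor_add_one a]
    · linarith [Int.ceil_lt_add_one a]
  have h1 : ∀ (m n : ℕ) (A : Matrix (Fin m) (Fin n) ℤ),
      (∀ (k : ℕ) (r : Fin k → Fin m) (c : Fin k → Fin n), |(A.submatrix r c).det| ≤ 3) →
      ∀ x : Fin n → ℝ, (∀ j, 0 ≤ x j ∧ x j ≤ 1) →
      ∃ z : Fin n → ℤ, (∀ j, z j = 0 ∨ z j = 1) ∧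
        (∀ j, (x j = 0 → z j = 0) ∧ (x j = 1 → z j = 1)) ∧
        ∀ i, |∑ j, (A i j : ℝ) * ((z j : ℝ) - x j)| < 5 / 2 := by
    intro m n A hA x hx
    obtain ⟨y, hg, k, e, r, hv⟩ := exists_vert A x hx
    have key : ∃ z : Fin n → ℤ, (∀ j, z j = 0 ∨ z j = 1) ∧
        (∀ j, (y j = 0 → z j = 0) ∧ (y j = 1 → z j = 1)) ∧
        ∀ i', |ev (A i') (fun j => (z j : ℝ)) - ev (A i') y| ≤ 3 / 2 := by
      have hdet := hA k r e
      have hne := hv.2.2.1
      have h3 : |(A.submatrix r e).det| = 1 ∨ |(A.submatrix r e).det| = 2 ∨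
          |(A.submatrix r e).det| = 3 := by
        have : 0 < |(A.submatrix r e).det| := abs_pos.2 hne
        omega
      rcases h3 with h3 | h3 | h3
      · -- no fractional coordinates
        obtain ⟨Y, hY, hY01, hYd⟩ := exists_num A y hg.1 e r hv
        rcases k with _ | k
        · obtain ⟨z, h1, h2, h3⟩ := finish_zero A y hg.1 (fun j hj => by
            obtain ⟨l, _⟩ := (hv.2.1 j).1 hj
            exact l.elim0)
          exact ⟨z, h1, h2, fun i' => (h3 i').trans (by norm_num)⟩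
        · exfalso
          have := hY01 0
          rw [h3] at this
          omega
      · exact case_two A hA y hg.1 e r hv h3
      · obtain ⟨z, h1, h2, h4⟩ := case_three A hA y hg.1 e r hv h3
        exact ⟨z, h1, h2, fun i' => (h4 i').trans (by norm_num)⟩
    obtain ⟨z, hz, hzk, hzd⟩ := key
    refine ⟨z, hz, fun j => ⟨fun h => (hzk j).1 ((hg.2.2 j).1 h), fun h => (hzk j).2 ((hg.2.2 j).2 h)⟩,
      fun i => ?_⟩
    rw [hev]
    have h2 := hfloor _ _ (hg.2.1 i).1 (hg.2.1 i).2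
    have h3 := hzd i
    calc |ev (A i) (fun j => (z j : ℝ)) - ev (A i) x|
        = |(ev (A i) (fun j => (z j : ℝ)) - ev (A i) y) + (ev (A i) y - ev (A i) x)| := by ring_nf
      _ ≤ _ := abs_add_le _ _
      _ < 5 / 2 := by linarith
  have h2 : ∀ (q m n : ℕ) (A : Matrix (Fin m) (Fin n) ℤ),
      (∀ (k : ℕ) (r : Fin k → Fin m) (c : Fin k → Fin n), |(A.submatrix r c).det| = 0 ∨
        |(A.submatrix r c).det| = 1 ∨ |(A.submatrix r c).det| = q) →
      ∀ x : Fin n → ℝ, (∀ j, 0 ≤ x j ∧ x j ≤ 1) →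
      ∃ z : Fin n → ℤ, (∀ j, z j = 0 ∨ z j = 1) ∧
        (∀ j, (x j = 0 → z j = 0) ∧ (x j = 1 → z j = 1)) ∧
        ∀ i, |∑ j, (A i j : ℝ) * ((z j : ℝ) - x j)| < 1 + ((q / 2 : ℕ) : ℝ) := by
    intro q m n A hA x hx
    obtain ⟨y, hg, k, e, r, hv⟩ := exists_vert A x hx
    obtain ⟨z, hz, hzk, hzd⟩ := case_q A q hA y hg.1 e r hv
    refine ⟨z, hz, fun j => ⟨fun h => (hzk j).1 ((hg.2.2 j).1 h), fun h => (hzk j).2 ((hg.2.2 j).2 h)⟩,
      fun i => ?_⟩
    rw [hev]
    have h2 := hfloor _ _ (hg.2.1 i).1 (hg.2.1 i).2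
    have h3 := hzd i
    calc |ev (A i) (fun j => (z j : ℝ)) - ev (A i) x|
        = |(ev (A i) (fun j => (z j : ℝ)) - ev (A i) y) + (ev (A i) y - ev (A i) x)| := by ring_nf
      _ ≤ _ := abs_add_le _ _
      _ < _ := by linarith
  refine ⟨h1, h2, ?_⟩
  intro D m n S hD hS I
  -- the matrix of the restricted system
  set A : Matrix (Fin m) (Fin n) ℤ := Matrix.of fun i j => if j ∈ S i ∧ j ∈ I then 1 else 0 with hAdef
  have hsub : ∀ (k : ℕ) (r : Fin k → Fin m) (c : Fin k → Fin n), |(A.submatrix r c).det| ≤ D := by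
    intro k r c
    by_cases hc : ∀ l, c l ∈ I
    · have : A.submatrix r c = Matrix.of fun i j => if c j ∈ S (r i) then (1 : ℤ) else 0 := by
        ext a b
        simp [hAdef, hc b]
      rw [this]
      exact hS k r c
    · push Not at hc
      obtain ⟨l, hl⟩ := hc
      have : (A.submatrix r c).det = 0 := by
        apply Matrix.det_eq_zero_of_column_eq_zero l
        intro i
        simp [hAdef, hl]
      rw [this]
      simp
  have hfin : ∀ (C : ℝ) (z : Fin n → ℤ), (∀ j, z j = 0 ∨ z j = 1) →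
      (∀ i, |∑ j, (A i j : ℝ) * ((z j : ℝ) - 1 / 2)| < C) →
      (∀ j, (2 * z j - 1 = 1 ∨ 2 * z j - 1 = -1)) ∧
        ∀ i, ((|∑ j ∈ S i ∩ I, (2 * z j - 1)| : ℤ) : ℝ) < 2 * C := by
    intro C z hz hC
    refine ⟨fun j => by rcases hz j with h | h <;> rw [h] <;> norm_num, fun i => ?_⟩
    have h3 : ((∑ j ∈ S i ∩ I, (2 * z j - 1) : ℤ) : ℝ) =
        2 * ∑ j, (A i j : ℝ) * ((z j : ℝ) - 1 / 2) := by
      rw [mul_sum]
      push_cast
      rw [← Finset.sum_filter_add_sum_filter_not univ (fun j => j ∈ S i ∩ I)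
        (fun j => 2 * ((A i j : ℝ) * ((z j : ℝ) - 1 / 2)))]
      have h4 : ∑ j ∈ univ.filter (fun j => ¬ j ∈ S i ∩ I),
          2 * ((A i j : ℝ) * ((z j : ℝ) - 1 / 2)) = 0 := by
        apply sum_eq_zero
        intro j hj
        have : ¬ (j ∈ S i ∧ j ∈ I) := by simpa using hj
        simp [hAdef, this]
      rw [h4, add_zero]
      have h5 : univ.filter (fun j => j ∈ S i ∩ I) = S i ∩ I := by ext j; simp
      rw [h5]
      apply sum_congr rfl
      intro j hj
      have : j ∈ S i ∧ j ∈ I := by simpa using hj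
      simp [hAdef, this]
      ring
    rw [Int.cast_abs, h3, abs_mul, abs_of_pos (by norm_num : (0 : ℝ) < 2)]
    have := hC i
    linarith
  have hhalf : ∀ j : Fin n, (0 : ℝ) ≤ (fun _ => (1 / 2 : ℝ)) j ∧ (fun _ => (1 / 2 : ℝ)) j ≤ 1 := by
    intro j; norm_num
  have hD4 : D = 0 ∨ D = 1 ∨ D = 2 ∨ D = 3 := by omega
  rcases hD4 with rfl | rfl | rfl | rfl
  · exfalso
    have := hsub 0 Fin.elim0 Fin.elim0
    simp at this
  · obtain ⟨z, hz, -, hzd⟩ := h2 1 m n A (fun k r c => by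
      have := hsub k r c
      have h0 := abs_nonneg (A.submatrix r c).det
      push_cast at this ⊢
      omega) (fun _ => 1 / 2) hhalf
    obtain ⟨h3, h4⟩ := hfin _ z hz hzd
    refine ⟨fun j => 2 * z j - 1, h3, fun i => ?_⟩
    have h5 : ((|∑ j ∈ S i ∩ I, (2 * z j - 1)| : ℤ) : ℝ) < ((2 : ℤ) : ℝ) :=
      lt_of_lt_of_le (h4 i) (by norm_num)
    have h6 : |∑ j ∈ S i ∩ I, (2 * z j - 1)| < 2 := Int.cast_lt.1 h5
    push_cast
    omega
  · obtain ⟨z, hz, -, hzd⟩ := h2 2 m n A (fun k r c => by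
      have := hsub k r c
      have h0 := abs_nonneg (A.submatrix r c).det
      push_cast at this ⊢
      omega) (fun _ => 1 / 2) hhalf
    obtain ⟨h3, h4⟩ := hfin _ z hz hzd
    refine ⟨fun j => 2 * z j - 1, h3, fun i => ?_⟩
    have h5 : ((|∑ j ∈ S i ∩ I, (2 * z j - 1)| : ℤ) : ℝ) < ((4 : ℤ) : ℝ) :=
      lt_of_lt_of_le (h4 i) (by norm_num)
    have h6 : |∑ j ∈ S i ∩ I, (2 * z j - 1)| < 4 := Int.cast_lt.1 h5
    push_cast
    omega
  · obtain ⟨z, hz, -, hzd⟩ := h1 m n A (fun k r c => by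
      have := hsub k r c
      exact_mod_cast this) (fun _ => 1 / 2) hhalf
    obtain ⟨h3, h4⟩ := hfin _ z hz hzd
    refine ⟨fun j => 2 * z j - 1, h3, fun i => ?_⟩
    have h5 : ((|∑ j ∈ S i ∩ I, (2 * z j - 1)| : ℤ) : ℝ) < ((5 : ℤ) : ℝ) :=
      lt_of_lt_of_le (h4 i) (by norm_num)
    have h6 : |∑ j ∈ S i ∩ I, (2 * z j - 1)| < 5 := Int.cast_lt.1 h5
    push_cast
    omega

end Pool.Agent.Results.MP_e8ee11_co.SmallSubdeterminants
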